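import Mathlib

/-!
# The minimum number of induced connected triples is not periodic

For every `p ≥ 2` and every `k ≥ 1` let `n = p + (p+1)^2 + (p+2) k` and let `e` be the number of the
edges of the disjoint union of one `K_p`, `p + 1` copies of `K_{p+1}` and `k` copies of `K_{p+2}`.
Then `p n / 2 < e`, `e + P_p < (p+1) n / 2` and `m(n, e + P_p) - m(n, e) > D_p`.
-/

set_option autoImplicit false

open Finset

namespace Pool.Agent.Results.MP_6d30b5_co.NotPeriodic

/-- `s₃(G)`: the number of the 3-element vertex sets whose induced subgraph is connected. -/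
noncomputable def s3 {V : Type*} (G : SimpleGraph V) : ℕ :=
  Set.ncard {S : Finset V | S.card = 3 ∧ (G.induce (S : Set V)).Connected}

/-- `m(n, e)`: the minimum of `s₃(G)` over the graphs `G` with `n` vertices and `e` edges. -/
noncomputable def m (n e : ℕ) : ℕ :=
  sInf {s : ℕ | ∃ G : SimpleGraph (Fin n), G.edgeSet.ncard = e ∧ s3 G = s}

section identity

open Classical

variable {V : Type*} [Fintype V] (G : SimpleGraph V)

/-- Three vertices induce a connected subgraph iff there are at least two edges. -/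
theorem conn_iff {x y z : V} (hxy : x ≠ y) (hxz : x ≠ z) (hyz : y ≠ z) :
    (G.induce (({x, y, z} : Finset V) : Set V)).Connected ↔
      (G.Adj x y ∧ G.Adj x z) ∨ (G.Adj x y ∧ G.Adj y z) ∨ (G.Adj x z ∧ G.Adj y z) := by
  have hx : x ∈ (({x, y, z} : Finset V) : Set V) := by simp
  have hy : y ∈ (({x, y, z} : Finset V) : Set V) := by simp
  have hz : z ∈ (({x, y, z} : Finset V) : Set V) := by simp
  constructor
  · intro h
    have hnt : Nontrivial (({x, y, z} : Finset V) : Set V) :=
      ⟨⟨x, hx⟩, ⟨y, hy⟩, fun h => hxy (congrArg Subtype.val h)⟩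
    have key : ∀ v : (({x, y, z} : Finset V) : Set V), ∃ u : (({x, y, z} : Finset V) : Set V),
        G.Adj v u := fun v => by
      obtain ⟨u, hu⟩ := h.preconnected.exists_adj_of_nontrivial v
      exact ⟨u, hu⟩
    have k1 : G.Adj x y ∨ G.Adj x z := by
      obtain ⟨⟨u, hu⟩, h1⟩ := key ⟨x, hx⟩
      simp only at h1
      simp only [coe_insert, coe_singleton, Set.mem_insert_iff, Set.mem_singleton_iff] at hu
      rcases hu with rfl | rfl | rfl
      · exact absurd h1 (G.irrefl)
      · exact Or.inl h1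
      · exact Or.inr h1
    have k2 : G.Adj x y ∨ G.Adj y z := by
      obtain ⟨⟨u, hu⟩, h1⟩ := key ⟨y, hy⟩
      simp only at h1
      simp only [coe_insert, coe_singleton, Set.mem_insert_iff, Set.mem_singleton_iff] at hu
      rcases hu with rfl | rfl | rfl
      · exact Or.inl h1.symm
      · exact absurd h1 (G.irrefl)
      · exact Or.inr h1
    have k3 : G.Adj x z ∨ G.Adj y z := by
      obtain ⟨⟨u, hu⟩, h1⟩ := key ⟨z, hz⟩
      simp only at h1
      simp only [coe_insert, coe_singleton, Set.mem_insert_iff, Set.mem_singleton_iff] at hu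
      rcases hu with rfl | rfl | rfl
      · exact Or.inl h1.symm
      · exact Or.inr h1.symm
      · exact absurd h1 (G.irrefl)
    tauto
  · intro h
    rw [SimpleGraph.connected_iff_exists_forall_reachable]
    rcases h with ⟨h1, h2⟩ | ⟨h1, h2⟩ | ⟨h1, h2⟩
    · refine ⟨⟨x, hx⟩, fun ⟨u, hu⟩ => ?_⟩
      simp only [coe_insert, coe_singleton, Set.mem_insert_iff, Set.mem_singleton_iff] at hu
      rcases hu with rfl | rfl | rfl
      · rfl
      · exact SimpleGraph.Adj.reachable h1
      · exact SimpleGraph.Adj.reachable h2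
    · refine ⟨⟨y, hy⟩, fun ⟨u, hu⟩ => ?_⟩
      simp only [coe_insert, coe_singleton, Set.mem_insert_iff, Set.mem_singleton_iff] at hu
      rcases hu with rfl | rfl | rfl
      · exact SimpleGraph.Adj.reachable h1.symm
      · rfl
      · exact SimpleGraph.Adj.reachable h2
    · refine ⟨⟨z, hz⟩, fun ⟨u, hu⟩ => ?_⟩
      simp only [coe_insert, coe_singleton, Set.mem_insert_iff, Set.mem_singleton_iff] at hu
      rcases hu with rfl | rfl | rfl
      · exact SimpleGraph.Adj.reachable h1.symm
      · exact SimpleGraph.Adj.reachable h2.symm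
      · rfl

/-- The indicator of an ordered triple of distinct vertices that induces a connected subgraph. -/
noncomputable def g (x y z : V) : ℤ :=
  if x ≠ y ∧ x ≠ z ∧ y ≠ z ∧
    ((G.Adj x y ∧ G.Adj x z) ∨ (G.Adj x y ∧ G.Adj y z) ∨ (G.Adj x z ∧ G.Adj y z)) then 1 else 0

/-- The indicator of a cherry with the center `x` and the ordered ends `y`, `z`. -/
noncomputable def a (x y z : V) : ℤ := if G.Adj x y ∧ G.Adj x z ∧ y ≠ z then 1 else 0

/-- The indicator of an induced cherry with the center `x` and the ordered ends `y`, `z`. -/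
noncomputable def b (x y z : V) : ℤ :=
  if G.Adj x y ∧ G.Adj x z ∧ y ≠ z ∧ ¬ G.Adj y z then 1 else 0

theorem pointwise (x y z : V) :
    (a G x y z + 2 * b G x y z) + (a G y x z + 2 * b G y x z) + (a G z x y + 2 * b G z x y) =
      3 * g G x y z := by
  unfold a b g
  by_cases h1 : x = y
  · subst h1
    by_cases h2 : x = z
    · subst h2; simp
    · simp
  · by_cases h2 : x = z
    · subst h2
      simp [h1]
    · by_cases h3 : y = z
      · subst h3
        simp
      · simp only [G.adj_comm y x, G.adj_comm z x, G.adj_comm z y]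
        by_cases e1 : G.Adj x y <;> by_cases e2 : G.Adj x z <;> by_cases e3 : G.Adj y z <;>
          simp [h1, h2, h3, e1, e2, e3]

theorem sum_eq : ∑ x, ∑ y, ∑ z, (a G x y z + 2 * b G x y z) = ∑ x, ∑ y, ∑ z, g G x y z := by
  have h1 : ∑ x, ∑ y, ∑ z, (a G y x z + 2 * b G y x z) =
      ∑ x, ∑ y, ∑ z, (a G x y z + 2 * b G x y z) := by
    rw [Finset.sum_comm]
  have h2 : ∑ x, ∑ y, ∑ z, (a G z x y + 2 * b G z x y) =
      ∑ x, ∑ y, ∑ z, (a G x y z + 2 * b G x y z) := by
    have : ∀ x : V, ∑ y, ∑ z, (a G z x y + 2 * b G z x y) =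
      ∑ z, ∑ y, (a G z x y + 2 * b G z x y) := fun x => Finset.sum_comm
    rw [Finset.sum_congr rfl fun x _ => this x, Finset.sum_comm]
  have h3 : ∑ x, ∑ y, ∑ z, ((a G x y z + 2 * b G x y z) + (a G y x z + 2 * b G y x z) +
      (a G z x y + 2 * b G z x y)) = ∑ x, ∑ y, ∑ z, 3 * g G x y z :=
    Finset.sum_congr rfl fun x _ => Finset.sum_congr rfl fun y _ => Finset.sum_congr rfl
      fun z _ => pointwise G x y z
  simp only [Finset.sum_add_distrib, ← Finset.mul_sum] at h1 h2 h3 ⊢
  linarith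

/-- The ordered triples with a given underlying set of three elements. -/
theorem card_orderings {S : Finset V} (hS : S.card = 3) :
    ((univ : Finset (V × V × V)).filter fun t => t.1 ≠ t.2.1 ∧ t.1 ≠ t.2.2 ∧ t.2.1 ≠ t.2.2 ∧
      ({t.1, t.2.1, t.2.2} : Finset V) = S).card = 6 := by
  obtain ⟨x, y, z, hxy, hxz, hyz, rfl⟩ := Finset.card_eq_three.mp hS
  have : ((univ : Finset (V × V × V)).filter fun t => t.1 ≠ t.2.1 ∧ t.1 ≠ t.2.2 ∧ t.2.1 ≠ t.2.2 ∧
      ({t.1, t.2.1, t.2.2} : Finset V) = {x, y, z}) =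
      {(x, y, z), (x, z, y), (y, x, z), (y, z, x), (z, x, y), (z, y, x)} := by
    ext ⟨u, v, w⟩
    simp only [mem_filter, mem_univ, true_and, mem_insert, mem_singleton, Prod.mk.injEq]
    constructor
    · rintro ⟨h1, h2, h3, h4⟩
      have hu : u ∈ ({x, y, z} : Finset V) := by rw [← h4]; simp
      have hv : v ∈ ({x, y, z} : Finset V) := by rw [← h4]; simp
      have hw : w ∈ ({x, y, z} : Finset V) := by rw [← h4]; simp
      simp only [mem_insert, mem_singleton] at hu hv hw
      rcases hu with rfl | rfl | rfl <;> rcases hv with rfl | rfl | rfl <;>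
        rcases hw with rfl | rfl | rfl <;> simp_all
    · rintro (⟨rfl, rfl, rfl⟩ | ⟨rfl, rfl, rfl⟩ | ⟨rfl, rfl, rfl⟩ | ⟨rfl, rfl, rfl⟩ |
        ⟨rfl, rfl, rfl⟩ | ⟨rfl, rfl, rfl⟩)
      · exact ⟨hxy, hxz, hyz, rfl⟩
      · refine ⟨hxz, hxy, hyz.symm, ?_⟩; ext t; simp; tauto
      · refine ⟨hxy.symm, hyz, hxz, ?_⟩; ext t; simp; tauto
      · refine ⟨hyz, hxy.symm, hxz.symm, ?_⟩; ext t; simp; tauto
      · refine ⟨hxz.symm, hyz.symm, hxy, ?_⟩; ext t; simp; tauto
      · refine ⟨hyz.symm, hxz.symm, hxy.symm, ?_⟩; ext t; simp; tauto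
  rw [this]
  rw [card_insert_of_notMem, card_insert_of_notMem, card_insert_of_notMem, card_insert_of_notMem,
    card_insert_of_notMem, card_singleton] <;> simp [hxy, hxz, hyz, hxy.symm, hxz.symm, hyz.symm]

theorem sum_g : ∑ x, ∑ y, ∑ z, g G x y z = 6 * (s3 G : ℤ) := by
  have h0 : s3 G = ((univ : Finset (Finset V)).filter fun S : Finset V => S.card = 3 ∧
      (G.induce (S : Set V)).Connected).card := by
    unfold s3
    rw [← Set.ncard_coe_finset]
    congr 1
    ext S
    simp
  have h1 : ∑ x, ∑ y, ∑ z, g G x y z = ∑ t : V × V × V, g G t.1 t.2.1 t.2.2 := by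
    rw [Fintype.sum_prod_type]
    refine Finset.sum_congr rfl fun x _ => ?_
    rw [Fintype.sum_prod_type]
  have h2 : ∑ t : V × V × V, g G t.1 t.2.1 t.2.2 =
      (((univ : Finset (V × V × V)).filter fun t => t.1 ≠ t.2.1 ∧ t.1 ≠ t.2.2 ∧ t.2.1 ≠ t.2.2 ∧
        ((G.Adj t.1 t.2.1 ∧ G.Adj t.1 t.2.2) ∨ (G.Adj t.1 t.2.1 ∧ G.Adj t.2.1 t.2.2) ∨
          (G.Adj t.1 t.2.2 ∧ G.Adj t.2.1 t.2.2))).card : ℤ) := by
    unfold g
    rw [Finset.sum_boole]
  have h3 : ((univ : Finset (V × V × V)).filter fun t => t.1 ≠ t.2.1 ∧ t.1 ≠ t.2.2 ∧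
      t.2.1 ≠ t.2.2 ∧ ((G.Adj t.1 t.2.1 ∧ G.Adj t.1 t.2.2) ∨ (G.Adj t.1 t.2.1 ∧
      G.Adj t.2.1 t.2.2) ∨ (G.Adj t.1 t.2.2 ∧ G.Adj t.2.1 t.2.2))).card =
      ∑ _S ∈ (univ : Finset (Finset V)).filter (fun S : Finset V => S.card = 3 ∧
        (G.induce (S : Set V)).Connected), 6 := by
    rw [Finset.card_eq_sum_card_fiberwise (f := fun t : V × V × V =>
      ({t.1, t.2.1, t.2.2} : Finset V)) (t := (univ : Finset (Finset V)).filter (fun S : Finset V =>
        S.card = 3 ∧ (G.induce (S : Set V)).Connected))]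
    · refine Finset.sum_congr rfl fun S hS => ?_
      rw [mem_filter] at hS
      rw [← card_orderings hS.2.1]
      congr 1
      ext ⟨x, y, z⟩
      simp only [mem_filter, mem_univ, true_and]
      constructor
      · rintro ⟨⟨h1, h2, h3, -⟩, h4⟩
        exact ⟨h1, h2, h3, h4⟩
      · rintro ⟨h1, h2, h3, h4⟩
        refine ⟨⟨h1, h2, h3, ?_⟩, h4⟩
        rw [← conn_iff G h1 h2 h3, h4]
        exact hS.2.2
    · rintro ⟨x, y, z⟩ h
      simp only [coe_filter, mem_univ, true_and, Set.mem_ofPred_eq] at h ⊢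
      obtain ⟨h1, h2, h3, h4⟩ := h
      exact ⟨Finset.card_eq_three.mpr ⟨x, y, z, h1, h2, h3, rfl⟩, (conn_iff G h1 h2 h3).mpr h4⟩
  rw [h1, h2, h3, Finset.sum_const, h0]
  push_cast
  rw [nsmul_eq_mul]
  push_cast
  ring

/-- The number of the induced cherries with the center `x` and the first end `y`. -/
noncomputable def q (x y : V) : ℤ := ∑ z, b G x y z

theorem b_nonneg (x y z : V) : 0 ≤ b G x y z := by
  unfold b; split_ifs <;> norm_num

theorem q_nonneg (x y : V) : 0 ≤ q G x y := Finset.sum_nonneg fun _ _ => b_nonneg G _ _ _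

theorem b_symm (x y z : V) : b G x y z = b G x z y := by
  unfold b
  congr 1
  rw [G.adj_comm z y, eq_iff_iff]
  constructor
  · rintro ⟨h1, h2, h3, h4⟩; exact ⟨h2, h1, h3.symm, h4⟩
  · rintro ⟨h1, h2, h3, h4⟩; exact ⟨h2, h1, h3.symm, h4⟩

theorem q_ge {x y : V} (h : G.Adj x y) : (G.degree x : ℤ) - G.degree y ≤ q G x y := by
  have h1 : q G x y = ((G.neighborFinset x \ insert y (G.neighborFinset y)).card : ℤ) := by
    unfold q b
    rw [Finset.sum_boole]
    congr 2
    ext z
    simp only [mem_filter, mem_univ, true_and, mem_sdiff, SimpleGraph.mem_neighborFinset,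
      mem_insert, not_or, h]
    constructor
    · rintro ⟨h2, h3, h4⟩; exact ⟨h2, h3.symm, h4⟩
    · rintro ⟨h2, h3, h4⟩; exact ⟨h2, fun h => h3 h.symm, h4⟩
  have h2 : G.neighborFinset x ⊆ (G.neighborFinset x \ insert y (G.neighborFinset y)) ∪
      (insert y (G.neighborFinset y)).erase x := by
    intro z hz
    rw [mem_union, mem_sdiff, mem_erase]
    by_cases h3 : z ∈ insert y (G.neighborFinset y)
    · right
      refine ⟨?_, h3⟩
      rintro rfl
      simp at hz
    · exact Or.inl ⟨hz, h3⟩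
  have h3 := (Finset.card_le_card h2).trans (Finset.card_union_le _ _)
  have h4 : ((insert y (G.neighborFinset y)).erase x).card = G.degree y := by
    rw [Finset.card_erase_of_mem, Finset.card_insert_of_notMem, SimpleGraph.card_neighborFinset_eq_degree]
    · simp
    · simp
    · rw [mem_insert, SimpleGraph.mem_neighborFinset]
      exact Or.inr h.symm
  rw [h4, SimpleGraph.card_neighborFinset_eq_degree] at h3
  rw [h1]
  have : (G.degree x : ℤ) ≤ ((G.neighborFinset x \ insert y (G.neighborFinset y)).card : ℤ) +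
    G.degree y := by exact_mod_cast h3
  linarith

theorem sum_a (x : V) : ∑ y, ∑ z, a G x y z = (G.degree x : ℤ) * (G.degree x - 1) := by
  have h1 : ∀ y, ∑ z, a G x y z = if G.Adj x y then (G.degree x : ℤ) - 1 else 0 := by
    intro y
    by_cases h : G.Adj x y
    · rw [if_pos h]
      have : ∑ z, a G x y z = (((G.neighborFinset x).erase y).card : ℤ) := by
        unfold a
        rw [Finset.sum_boole]
        congr 2
        ext z
        simp only [mem_filter, mem_univ, true_and, mem_erase, SimpleGraph.mem_neighborFinset, h]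
        constructor
        · rintro ⟨h2, h3⟩; exact ⟨h3.symm, h2⟩
        · rintro ⟨h2, h3⟩; exact ⟨h3, fun h => h2 h.symm⟩
      rw [this, Finset.card_erase_of_mem, SimpleGraph.card_neighborFinset_eq_degree, Nat.cast_sub,
        Nat.cast_one]
      · rw [← SimpleGraph.card_neighborFinset_eq_degree]
        exact Finset.card_pos.mpr ⟨y, by rw [SimpleGraph.mem_neighborFinset]; exact h⟩
      · rw [SimpleGraph.mem_neighborFinset]; exact h
    · rw [if_neg h]
      exact Finset.sum_eq_zero fun z _ => by unfold a; rw [if_neg (fun h' => h h'.1)]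
  rw [Finset.sum_congr rfl fun y _ => h1 y, ← Finset.sum_filter, Finset.sum_const, nsmul_eq_mul]
  congr 2
  rw [← SimpleGraph.card_neighborFinset_eq_degree]
  congr 1
  ext z
  simp

/-- `6 s₃ = ∑ d (d - 1) + 2 #(ordered induced cherries)`. -/
theorem six_s3 : 6 * (s3 G : ℤ) =
    ∑ x, (G.degree x : ℤ) * (G.degree x - 1) + 2 * ∑ x, ∑ y, q G x y := by
  rw [← sum_g, ← sum_eq]
  simp only [Finset.sum_add_distrib, ← Finset.mul_sum, sum_a, q]

theorem int_aux (t : ℤ) : 0 ≤ t * (t - 1) := by
  rcases le_or_gt t 0 with h | h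
  · nlinarith
  · have : 1 ≤ t := h
    nlinarith

/-- The main lower bound. -/
theorem lower (p : ℕ) (hp : 2 ≤ p)
    (hdeg : ∑ v, (G.degree v : ℤ) = ((p : ℤ) + 1) * (Fintype.card V : ℤ) - (p - 1)) :
    2 * (p : ℤ) < ∑ x, ((G.degree x : ℤ) - p) * ((G.degree x : ℤ) - p - 1) +
      2 * ∑ x, ∑ y, q G x y := by
  by_contra hR
  push Not at hR
  have hp' : (2 : ℤ) ≤ p := by exact_mod_cast hp
  have hT : ∀ x, 0 ≤ ((G.degree x : ℤ) - p) * ((G.degree x : ℤ) - p - 1) := fun x => int_aux _
  have hT' : 0 ≤ ∑ x, ((G.degree x : ℤ) - p) * ((G.degree x : ℤ) - p - 1) :=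
    Finset.sum_nonneg fun x _ => hT x
  -- Step A
  have hA : ∀ w, G.degree w ≤ p + 1 := by
    intro w
    by_contra hw
    push Not at hw
    have h1 : ∑ u ∈ G.neighborFinset w, ((G.degree u : ℤ) - p) * ((G.degree u : ℤ) - p - 1) ≤
        ∑ x, ((G.degree x : ℤ) - p) * ((G.degree x : ℤ) - p - 1) :=
      Finset.sum_le_sum_of_subset_of_nonneg (Finset.subset_univ _) fun x _ _ => hT x
    have h2 : ∑ u ∈ G.neighborFinset w, q G w u ≤ ∑ x, ∑ y, q G x y :=
      (Finset.sum_le_sum_of_subset_of_nonneg (Finset.subset_univ _) fun x _ _ => q_nonneg G w x).trans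
        (Finset.single_le_sum (f := fun x => ∑ y, q G x y)
          (fun x _ => Finset.sum_nonneg fun y _ => q_nonneg G x y) (mem_univ w))
    have h3 : ∑ _u ∈ G.neighborFinset w, (2 : ℤ) ≤ ∑ u ∈ G.neighborFinset w,
        (((G.degree u : ℤ) - p) * ((G.degree u : ℤ) - p - 1) + 2 * q G w u) := by
      refine Finset.sum_le_sum fun u hu => ?_
      rw [SimpleGraph.mem_neighborFinset] at hu
      have hq := q_ge G hu
      have hq0 := q_nonneg G w u
      rcases le_or_gt (G.degree u) (p + 1) with h | h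
      · have h4 : (G.degree u : ℤ) ≤ p + 1 := by exact_mod_cast h
        have h5 : (p : ℤ) + 2 ≤ G.degree w := by exact_mod_cast hw
        have := hT u
        linarith
      · have h4 : (p : ℤ) + 2 ≤ G.degree u := by exact_mod_cast h
        nlinarith
    rw [Finset.sum_const, SimpleGraph.card_neighborFinset_eq_degree, nsmul_eq_mul,
      Finset.sum_add_distrib, ← Finset.mul_sum] at h3
    have h5 : (p : ℤ) + 2 ≤ G.degree w := by exact_mod_cast hw
    linarith
  -- Step B
  set B : Finset V := univ.filter fun v => G.degree v ≤ p with hB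
  have hsum : ∑ v, ((p : ℤ) + 1 - G.degree v) = p - 1 := by
    rw [Finset.sum_sub_distrib, hdeg, Finset.sum_const, Finset.card_univ, nsmul_eq_mul]
    ring
  have hsumB : ∑ v ∈ B, ((p : ℤ) + 1 - G.degree v) = p - 1 := by
    rw [← hsum]
    refine Finset.sum_subset (Finset.subset_univ _) fun v _ hv => ?_
    rw [hB, mem_filter] at hv
    have h1 : ¬ G.degree v ≤ p := fun h => hv ⟨mem_univ _, h⟩
    have h2 := hA v
    have h3 : G.degree v = p + 1 := by omega
    rw [h3]
    push_cast
    ring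
  have hdef : ∀ v ∈ B, (1 : ℤ) ≤ (p : ℤ) + 1 - G.degree v := by
    intro v hv
    rw [hB, mem_filter] at hv
    have : (G.degree v : ℤ) ≤ p := by exact_mod_cast hv.2
    linarith
  have hdefB : ∀ v ∈ B, ((p : ℤ) + 1 - G.degree v) + ((B.card : ℤ) - 1) ≤ p - 1 := by
    intro v hv
    rw [← hsumB, ← Finset.add_sum_erase _ _ hv]
    have h1 : ∑ _x ∈ B.erase v, (1 : ℤ) ≤ ∑ x ∈ B.erase v, ((p : ℤ) + 1 - G.degree x) :=
      Finset.sum_le_sum fun x hx => hdef x (Finset.mem_of_mem_erase hx)
    rw [Finset.sum_const, nsmul_eq_mul, mul_one, Finset.card_erase_of_mem hv, Nat.cast_sub,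
      Nat.cast_one] at h1
    · linarith
    · exact Finset.card_pos.mpr ⟨v, hv⟩
  have hN : ∀ v ∈ B, (2 : ℤ) ≤ ((G.neighborFinset v \ B).card : ℤ) := by
    intro v hv
    have h1 : G.neighborFinset v ⊆ (G.neighborFinset v \ B) ∪ B.erase v := by
      intro z hz
      rw [mem_union, mem_sdiff, mem_erase]
      by_cases h3 : z ∈ B
      · right
        refine ⟨?_, h3⟩
        rintro rfl
        simp at hz
      · exact Or.inl ⟨hz, h3⟩
    have h2 := (Finset.card_le_card h1).trans (Finset.card_union_le _ _)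
    have h3 : 0 < B.card := Finset.card_pos.mpr ⟨v, hv⟩
    rw [Finset.card_erase_of_mem hv, SimpleGraph.card_neighborFinset_eq_degree] at h2
    have h4 := hdefB v hv
    have h5 : (G.degree v : ℤ) ≤ ((G.neighborFinset v \ B).card : ℤ) + ((B.card : ℤ) - 1) := by
      have : G.degree v + 1 ≤ (G.neighborFinset v \ B).card + B.card := by omega
      have : (G.degree v : ℤ) + 1 ≤ ((G.neighborFinset v \ B).card : ℤ) + B.card := by
        exact_mod_cast this
      linarith
    linarith
  have hQ : 2 * ((p : ℤ) - 1) ≤ ∑ x, ∑ y, q G x y := by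
    rw [Finset.sum_comm]
    calc 2 * ((p : ℤ) - 1) = ∑ v ∈ B, 2 * ((p : ℤ) + 1 - G.degree v) := by
          rw [← Finset.mul_sum, hsumB]
      _ ≤ ∑ v ∈ B, ∑ u ∈ G.neighborFinset v \ B, q G u v := by
          refine Finset.sum_le_sum fun v hv => ?_
          calc 2 * ((p : ℤ) + 1 - G.degree v) ≤
                ((G.neighborFinset v \ B).card : ℤ) * ((p : ℤ) + 1 - G.degree v) :=
                mul_le_mul_of_nonneg_right (hN v hv) (by linarith [hdef v hv])
            _ = ∑ u ∈ G.neighborFinset v \ B, ((p : ℤ) + 1 - G.degree v) := by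
                rw [Finset.sum_const, nsmul_eq_mul]
            _ ≤ ∑ u ∈ G.neighborFinset v \ B, q G u v := by
                refine Finset.sum_le_sum fun u hu => ?_
                rw [mem_sdiff, SimpleGraph.mem_neighborFinset] at hu
                have h1 := q_ge G hu.1.symm
                have h2 : G.degree u = p + 1 := by
                  have h3 := hA u
                  have h4 : ¬ G.degree u ≤ p := fun h => hu.2 (by rw [hB, mem_filter]; exact ⟨mem_univ _, h⟩)
                  omega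
                rw [h2] at h1
                push_cast at h1
                exact h1
      _ ≤ ∑ v ∈ B, ∑ u, q G u v := Finset.sum_le_sum fun v _ =>
          Finset.sum_le_sum_of_subset_of_nonneg (Finset.subset_univ _) fun u _ _ => q_nonneg G u v
      _ ≤ ∑ v, ∑ u, q G u v :=
          Finset.sum_le_sum_of_subset_of_nonneg (Finset.subset_univ _) fun v _ _ =>
            Finset.sum_nonneg fun u _ => q_nonneg G u v
  have hp2 : p = 2 := by
    have : (p : ℤ) ≤ 2 := by linarith
    have : p ≤ 2 := by exact_mod_cast this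
    omega
  subst hp2
  have hBne : B.Nonempty := by
    by_contra h
    rw [Finset.not_nonempty_iff_eq_empty] at h
    rw [h] at hsumB
    norm_num at hsumB
  obtain ⟨v, hv⟩ := hBne
  have h1 := hdefB v hv
  have h2 := hdef v hv
  have h3 : B.card = 1 := by
    have h4 : (B.card : ℤ) ≤ 1 := by push_cast at h1 h2 ⊢; linarith
    have h5 : B.card ≤ 1 := by exact_mod_cast h4
    have h6 : 0 < B.card := Finset.card_pos.mpr ⟨v, hv⟩
    omega
  have h4 : G.degree v = 2 := by
    rw [h3] at h1
    push_cast at h1 h2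
    have : (G.degree v : ℤ) = 2 := by linarith
    exact_mod_cast this
  have h5 : ∀ u ∈ G.neighborFinset v, (2 : ℤ) ≤ ∑ x, q G u x := by
    intro u hu
    rw [SimpleGraph.mem_neighborFinset] at hu
    have h6 : G.degree u = 3 := by
      have h7 := hA u
      have h8 : ¬ G.degree u ≤ 2 := by
        intro h
        have : u ∈ B := by rw [hB, mem_filter]; exact ⟨mem_univ _, h⟩
        obtain ⟨w, hw⟩ := Finset.card_eq_one.mp h3
        rw [hw, mem_singleton] at hv this
        rw [hv, this] at hu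
        exact G.irrefl hu
      omega
    have h7 := q_ge G hu.symm
    rw [h6, h4] at h7
    have h8 : ∃ y, b G u v y ≠ 0 := by
      by_contra hc
      push Not at hc
      have : q G u v = 0 := Finset.sum_eq_zero fun y _ => hc y
      rw [this] at h7
      norm_num at h7
    obtain ⟨y, hy⟩ := h8
    have hy1 : b G u v y = 1 := by
      unfold b at hy ⊢
      split_ifs at hy ⊢ with h
      · rfl
      · exact absurd rfl hy
    have hvy : v ≠ y := by
      unfold b at hy1
      split_ifs at hy1 with h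
      · exact h.2.2.1
      · exact absurd hy1 (by norm_num)
    have h9 : q G u v + q G u y ≤ ∑ x, q G u x := by
      rw [← Finset.sum_pair hvy]
      exact Finset.sum_le_sum_of_subset_of_nonneg (Finset.subset_univ _) fun x _ _ => q_nonneg G u x
    have h10 : 1 ≤ q G u v := by
      rw [← hy1]
      exact Finset.single_le_sum (f := fun z => b G u v z) (fun z _ => b_nonneg G u v z) (mem_univ y)
    have h11 : 1 ≤ q G u y := by
      rw [← hy1, b_symm]
      exact Finset.single_le_sum (f := fun z => b G u y z) (fun z _ => b_nonneg G u y z) (mem_univ v)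
    linarith
  have h6 : (4 : ℤ) ≤ ∑ x, ∑ y, q G x y := by
    calc (4 : ℤ) = ∑ u ∈ G.neighborFinset v, (2 : ℤ) := by
          rw [Finset.sum_const, SimpleGraph.card_neighborFinset_eq_degree, h4]; norm_num
      _ ≤ ∑ u ∈ G.neighborFinset v, ∑ x, q G u x := Finset.sum_le_sum h5
      _ ≤ ∑ x, ∑ y, q G x y := Finset.sum_le_sum_of_subset_of_nonneg (Finset.subset_univ _)
          fun u _ _ => Finset.sum_nonneg fun x _ => q_nonneg G u x
  push_cast at hR hT'
  linarith

/-- The lower bound for `s₃`. -/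
theorem s3_lower (p e : ℕ) (hp : 2 ≤ p) (he : G.edgeSet.ncard = e)
    (h2e : 2 * (e : ℤ) = ((p : ℤ) + 1) * (Fintype.card V : ℤ) - (p - 1)) :
    2 * (p : ℤ) + 4 * p * e - (Fintype.card V : ℤ) * p * (p + 1) < 6 * (s3 G : ℤ) := by
  have h1 : G.edgeFinset.card = e := by
    rw [← he, ← SimpleGraph.coe_edgeFinset, Set.ncard_coe_finset]
  have h2 : ∑ v, (G.degree v : ℤ) = 2 * e := by
    rw [← h1]
    exact_mod_cast G.sum_degrees_eq_twice_card_edges
  have h3 := lower G p hp (by rw [h2, h2e])
  have h4 : ∑ x, ((G.degree x : ℤ) - p) * ((G.degree x : ℤ) - p - 1) =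
      ∑ x, (G.degree x : ℤ) * (G.degree x - 1) - 2 * p * (2 * e) +
        (Fintype.card V : ℤ) * (p * (p + 1)) := by
    rw [← h2, Finset.mul_sum, ← Finset.sum_sub_distrib, ← Finset.card_univ, ← nsmul_eq_mul,
      ← Finset.sum_const, ← Finset.sum_add_distrib]
    refine Finset.sum_congr rfl fun x _ => ?_
    ring
  rw [six_s3]
  linarith

end identity

section construction

open Classical

variable (p k : ℕ)

/-- The index set of the cliques. -/
abbrev I : Type := Unit ⊕ Fin (p + 1) ⊕ Fin k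

/-- The sizes of the cliques: one of size `p`, `p + 1` of size `p + 1`, and `k` of size `p + 2`. -/
def sz : I p k → ℕ
  | Sum.inl _ => p
  | Sum.inr (Sum.inl _) => p + 1
  | Sum.inr (Sum.inr _) => p + 2

/-- The number of the vertices. -/
def N : ℕ := p + (p + 1) ^ 2 + (p + 2) * k

theorem card_sigma : Fintype.card (Σ i : I p k, Fin (sz p k i)) = N p k := by
  have h : Fintype.card (Σ i : I p k, Fin (sz p k i)) = ∑ i : I p k, sz p k i := by
    rw [Fintype.card_sigma]
    exact Finset.sum_congr rfl fun i _ => Fintype.card_fin _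
  rw [h, Fintype.sum_sum_type, Fintype.sum_sum_type]
  simp [sz, N]
  ring

/-- A numbering of the vertices. -/
noncomputable def eqv : (Σ i : I p k, Fin (sz p k i)) ≃ Fin (N p k) :=
  Fintype.equivFinOfCardEq (card_sigma p k)

/-- The clique of a vertex. -/
noncomputable def blk (v : Fin (N p k)) : I p k := ((eqv p k).symm v).1

/-- The disjoint union of the cliques. -/
noncomputable def U : SimpleGraph (Fin (N p k)) where
  Adj u v := u ≠ v ∧ blk p k u = blk p k v
  symm := ⟨fun _ _ h => ⟨h.1.symm, h.2.symm⟩⟩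
  loopless := ⟨fun _ h => h.1 rfl⟩

theorem sum_blk (F : I p k → ℤ) : ∑ v, F (blk p k v) = ∑ i, (sz p k i : ℤ) * F i := by
  rw [← (eqv p k).sum_comp]
  unfold blk
  simp only [Equiv.symm_apply_apply]
  rw [Fintype.sum_sigma]
  refine Finset.sum_congr rfl fun i _ => ?_
  change ∑ _y : Fin (sz p k i), F i = _
  rw [Finset.sum_const, Finset.card_univ, Fintype.card_fin, nsmul_eq_mul]

theorem sum_sz (F : ℕ → ℤ) : ∑ i : I p k, (sz p k i : ℤ) * F (sz p k i) =
    p * F p + (p + 1) * ((p + 1) * F (p + 1)) + k * ((p + 2) * F (p + 2)) := by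
  rw [Fintype.sum_sum_type, Fintype.sum_sum_type]
  simp [sz]
  ring

theorem degree_U (v : Fin (N p k)) : ((U p k).degree v : ℤ) = sz p k (blk p k v) - 1 := by
  have h1 : (U p k).neighborFinset v = (univ.filter fun u => blk p k u = blk p k v).erase v := by
    ext u
    rw [SimpleGraph.mem_neighborFinset, mem_erase, mem_filter]
    constructor
    · rintro ⟨h1, h2⟩; exact ⟨h1.symm, mem_univ _, h2.symm⟩
    · rintro ⟨h1, -, h2⟩; exact ⟨h1.symm, h2.symm⟩
  have h2 : (((univ.filter fun u => blk p k u = blk p k v).card : ℕ) : ℤ) =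
      sz p k (blk p k v) := by
    rw [← Finset.sum_boole, sum_blk p k (fun i => if i = blk p k v then 1 else 0)]
    simp
  have h3 : v ∈ univ.filter fun u => blk p k u = blk p k v := by simp
  rw [← SimpleGraph.card_neighborFinset_eq_degree, h1, Finset.card_erase_of_mem h3, Nat.cast_sub, h2,
    Nat.cast_one]
  exact Finset.card_pos.mpr ⟨v, h3⟩

/-- The number of the edges. -/
def E : ℕ := p.choose 2 + (p + 1) * (p + 1).choose 2 + k * (p + 2).choose 2

theorem two_choose (a : ℕ) : 2 * ((a.choose 2 : ℕ) : ℤ) = a * (a - 1) := by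
  rw [Nat.choose_two_right]
  rcases a with _ | a
  · simp
  · have h : 2 ∣ (a + 1) * (a + 1 - 1) := by
      rw [Nat.add_sub_cancel, mul_comm]
      exact (Nat.even_mul_succ_self a).two_dvd
    have h2 : 2 * ((a + 1) * (a + 1 - 1) / 2) = (a + 1) * (a + 1 - 1) := Nat.mul_div_cancel' h
    rw [Nat.add_sub_cancel] at h2 ⊢
    have h3 : (2 : ℤ) * (((a + 1) * a / 2 : ℕ) : ℤ) = (a + 1) * a := by exact_mod_cast h2
    rw [h3]
    push_cast
    ring

theorem two_E : 2 * (E p k : ℤ) =
    p * (p - 1) + (p + 1) * ((p + 1) * p) + k * ((p + 2) * (p + 1)) := by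
  have h1 := two_choose p
  have h2 := two_choose (p + 1)
  have h3 := two_choose (p + 2)
  unfold E
  push_cast at h1 h2 h3 ⊢
  linear_combination h1 + (p + 1 : ℤ) * h2 + (k : ℤ) * h3

theorem edges_U : (U p k).edgeSet.ncard = E p k := by
  have h1 : (U p k).edgeSet.ncard = (U p k).edgeFinset.card := by
    rw [← SimpleGraph.coe_edgeFinset, Set.ncard_coe_finset]
  have h2 : ∑ v, ((U p k).degree v : ℤ) = 2 * ((U p k).edgeFinset.card : ℤ) := by
    exact_mod_cast (U p k).sum_degrees_eq_twice_card_edges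
  rw [Finset.sum_congr rfl fun v _ => degree_U p k v,
    sum_blk p k (fun i => (sz p k i : ℤ) - 1), sum_sz p k (fun a => (a : ℤ) - 1)] at h2
  have h3 := two_E p k
  have h4 : ((U p k).edgeFinset.card : ℤ) = E p k := by
    push_cast at h2
    linarith
  rw [h1]
  exact_mod_cast h4

theorem s3_U : 6 * (s3 (U p k) : ℤ) =
    2 * (p : ℤ) + 4 * p * E p k - (N p k : ℤ) * p * (p + 1) := by
  have hq : ∀ x y, q (U p k) x y = 0 := by
    intro x y
    refine Finset.sum_eq_zero fun z _ => ?_
    unfold b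
    rw [if_neg]
    rintro ⟨h1, h2, h3, h4⟩
    exact h4 ⟨h3, h1.2.symm.trans h2.2⟩
  have h3 := two_E p k
  rw [six_s3]
  simp only [hq, Finset.sum_const_zero, mul_zero, add_zero]
  rw [Finset.sum_congr rfl fun v _ => by rw [degree_U p k v],
    sum_blk p k (fun i => ((sz p k i : ℤ) - 1) * ((sz p k i : ℤ) - 1 - 1)),
    sum_sz p k (fun a => ((a : ℤ) - 1) * ((a : ℤ) - 1 - 1))]
  unfold N
  push_cast
  linear_combination (-2 * (p : ℤ)) * h3

end construction

/-- `P_p`. -/
def P (p : ℕ) : ℕ := (p + 2).choose 2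

/-- `D_p`. -/
def D (p : ℕ) : ℕ := p * (p + 1) * (p + 2) / 3

theorem two_P (p : ℕ) : 2 * (P p : ℤ) = (p + 2) * (p + 1) := by
  have := two_choose (p + 2)
  unfold P
  push_cast at this ⊢
  linear_combination this

theorem three_D (p : ℕ) : 3 * (D p : ℤ) = p * (p + 1) * (p + 2) := by
  have h : 3 ∣ p * (p + 1) * (p + 2) := by
    have h1 : (p * (p + 1) * (p + 2)) % 3 = 0 := by
      have : p % 3 = 0 ∨ p % 3 = 1 ∨ p % 3 = 2 := by omega
      rcases this with h | h | h <;> simp [Nat.mul_mod, Nat.add_mod, h]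
    exact Nat.dvd_of_mod_eq_zero h1
  have h2 : 3 * (p * (p + 1) * (p + 2) / 3) = p * (p + 1) * (p + 2) := Nat.mul_div_cancel' h
  unfold D
  exact_mod_cast h2

/-- There is a graph with any given number of edges up to `n (n - 1) / 2`. -/
theorem exists_graph (n e : ℕ) (h : e ≤ n.choose 2) :
    ∃ G : SimpleGraph (Fin n), G.edgeSet.ncard = e := by
  classical
  have h1 : e ≤ (⊤ : SimpleGraph (Fin n)).edgeFinset.card := by
    rw [SimpleGraph.card_edgeFinset_top_eq_card_choose_two, Fintype.card_fin]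
    exact h
  obtain ⟨t, ht, hc⟩ := Finset.exists_subset_card_eq h1
  refine ⟨SimpleGraph.fromEdgeSet (t : Set (Sym2 (Fin n))), ?_⟩
  rw [SimpleGraph.edgeSet_fromEdgeSet]
  have h2 : (t : Set (Sym2 (Fin n))) \ {e | e.IsDiag} = t := by
    rw [sdiff_eq_left, Set.disjoint_left]
    intro x hx hd
    have := ht hx
    rw [SimpleGraph.mem_edgeFinset] at this
    exact (SimpleGraph.not_isDiag_of_mem_edgeSet _ this) hd
  first
  | rw [h2, Set.ncard_coe_finset, hc]
  | (show Set.ncard ((t : Set (Sym2 (Fin n))) \ {e | e.IsDiag}) = e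
     rw [h2, Set.ncard_coe_finset, hc])

/-- The periodicity fails for every `p ≥ 2`. -/
theorem main (p k : ℕ) (hp : 2 ≤ p) (hk : 1 ≤ k) :
    p * N p k < 2 * E p k ∧ 2 * (E p k + P p) < (p + 1) * N p k ∧
      m (N p k) (E p k) + D p < m (N p k) (E p k + P p) := by
  have hE := two_E p k
  have hP := two_P p
  have hD := three_D p
  have hp' : (2 : ℤ) ≤ p := by exact_mod_cast hp
  have hk' : (1 : ℤ) ≤ k := by exact_mod_cast hk
  have hN : (N p k : ℤ) = p + (p + 1) ^ 2 + (p + 2) * k := by
    unfold N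
    push_cast
    ring
  have c1 : p * N p k < 2 * E p k := by
    zify
    rw [hE, hN]
    nlinarith
  have hdef : 2 * ((E p k + P p : ℕ) : ℤ) = ((p : ℤ) + 1) * (N p k : ℤ) - (p - 1) := by
    push_cast
    rw [mul_add, hE, hP, hN]
    ring
  have c2 : 2 * (E p k + P p) < (p + 1) * N p k := by
    zify
    push_cast at hdef
    linarith
  refine ⟨c1, c2, ?_⟩
  have h1 : m (N p k) (E p k) ≤ s3 (U p k) := Nat.sInf_le ⟨U p k, edges_U p k, rfl⟩
  have hne : {s : ℕ | ∃ G : SimpleGraph (Fin (N p k)), G.edgeSet.ncard = E p k + P p ∧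
      s3 G = s}.Nonempty := by
    obtain ⟨G, hG⟩ := exists_graph (N p k) (E p k + P p) (by
      have h3 := two_choose (N p k)
      zify
      have h4 : ((p : ℤ) + 1) ≤ N p k - 1 := by
        rw [hN]
        nlinarith
      have h5 : (0 : ℤ) ≤ N p k := by positivity
      push_cast at hdef
      nlinarith)
    exact ⟨_, G, hG, rfl⟩
  obtain ⟨G, hG, hs⟩ := Nat.sInf_mem hne
  change s3 G = m (N p k) (E p k + P p) at hs
  rw [← hs]
  have h2 := s3_lower G p (E p k + P p) hp hG (by rw [Fintype.card_fin]; exact hdef)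
  have h3 := s3_U p k
  rw [Fintype.card_fin] at h2
  have h4 : (m (N p k) (E p k) : ℤ) ≤ s3 (U p k) := by exact_mod_cast h1
  have h5 : 4 * (p : ℤ) * (P p : ℤ) = 6 * D p := by linear_combination (2 * (p : ℤ)) * hP - 2 * hD
  zify
  push_cast at h2
  linarith

/-- For every `p ≥ 2` and every `k ≥ 1`, for `n = p + (p+1)^2 + (p+2) k` and
`e = C(p,2) + (p+1) C(p+1,2) + k C(p+2,2)`, one has `p n / 2 < e`, `e + P_p < (p+1) n / 2` and
`m(n, e + P_p) - m(n, e) > D_p`. -/
theorem result (p k n e : ℕ) (hp : 2 ≤ p) (hk : 1 ≤ k)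
    (hn : n = p + (p + 1) ^ 2 + (p + 2) * k)
    (he : e = p.choose 2 + (p + 1) * (p + 1).choose 2 + k * (p + 2).choose 2) :
    p * n < 2 * e ∧ 2 * (e + (p + 2).choose 2) < (p + 1) * n ∧
      m n e + p * (p + 1) * (p + 2) / 3 < m n (e + (p + 2).choose 2) := by
  subst hn he
  exact main p k hp hk

end Pool.Agent.Results.MP_6d30b5_co.NotPeriodic
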